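import Pool.Agent.Lib.MP_afeff1_an.Bridge

/-!
# MP_afeff1_an, Q1: every biflat Fréchet algebra `A` satisfies `wdb A ≤ 2`

All the definitions used by the statement are in `Pool.Agent.Lib.MP_afeff1_an.Defs`.

The main step of the proof is `flat_outer` (file `Key`): if `X` is a flat left Fréchet `B`-module
and `Y` is a flat right Fréchet `C`-module, then `X ⊗̂ Y` is a flat Fréchet `B`-`C`-bimodule.
-/

set_option autoImplicit false

namespace Pool.Agent.Results.MP_afeff1_an.BiflatWdbLeTwo

open Pool.Agent.FrHom

universe u

/-- **Every biflat Fréchet algebra has weak bidimension at most two.** -/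
theorem result (A : Type u) [NonUnitalRing A] [Module ℂ A] [UniformSpace A] [FrechetAlgebra A]
    (hA : IsBiflat A) : weakBidim A ≤ 2 :=
  weakBidim_le_two A hA

end Pool.Agent.Results.MP_afeff1_an.BiflatWdbLeTwo
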